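import Pool.Agent.Helper95.IotaEnd

set_option autoImplicit false

namespace Pool.Agent.Results.MP_50d9bc_an.DifferenceCondition

open Pool.Agent.Helper95.Iota

/-- Surjective maps `φ : B(X) → B(Y)` with `ι_{φ(T)-φ(S)}(y₀) = ι_{T-S}(x₀)` for all `T`, `S`, where
`X`, `Y` are arbitrary complex Banach spaces and `x₀`, `y₀` are nonzero: no linearity, additivity,
continuity, injectivity or condition on sums is assumed. -/
theorem result {X Y : Type*}
    [NormedAddCommGroup X] [NormedSpace ℂ X] [CompleteSpace X]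
    [NormedAddCommGroup Y] [NormedSpace ℂ Y] [CompleteSpace Y]
    {x₀ : X} {y₀ : Y} (hx₀ : x₀ ≠ 0) (hy₀ : y₀ ≠ 0)
    (φ : (X →L[ℂ] X) → (Y →L[ℂ] Y)) (hφ : Function.Surjective φ)
    (h : ∀ T S : X →L[ℂ] X, innerRadius (φ T - φ S) y₀ = innerRadius (T - S) x₀) :
    ∃ α : ℂ, ‖α‖ = 1 ∧
      ((∃ A : X ≃L[ℂ] Y, A x₀ = y₀ ∧
          ∀ (T : X →L[ℂ] X) (y : Y), φ T y = φ 0 y + α • A (T (A.symm y))) ∨
       (∃ A : X ≃SL[starRingEnd ℂ] Y, A x₀ = y₀ ∧
          ∀ (T : X →L[ℂ] X) (y : Y), φ T y = φ 0 y + α • A (T (A.symm y)))) :=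
  main_general hx₀ hy₀ φ hφ h

end Pool.Agent.Results.MP_50d9bc_an.DifferenceCondition
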